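import Pool.Agent.MP_c00c90_lc.Apps

set_option autoImplicit false

open Pool.Agent.MP_c00c90_lc

namespace Pool.Agent.Results.MP_c00c90_lc.PosSLPBPPSharp

/-- Deciding whether a straight-line program computes a positive integer is in bounded error
probabilistic polynomial time with counting (sharp P) queries. -/
theorem result : BPPSharp PosSLP := posslp.1

end Pool.Agent.Results.MP_c00c90_lc.PosSLPBPPSharp
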