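import Pool.Agent.MP_c00c90_lc.Apps

set_option autoImplicit false

open Pool.Agent.MP_c00c90_lc

namespace Pool.Agent.Results.MP_c00c90_lc.SqrtSumBPPSharp

/-- Comparing two sums of square roots is in bounded error probabilistic polynomial time with
counting (sharp P) queries. -/
theorem result : BPPSharp SSQR2 := ssqr2.1

end Pool.Agent.Results.MP_c00c90_lc.SqrtSumBPPSharp
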