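import Pool.Agent.MP_c00c90_lc.Tour

set_option autoImplicit false

open Pool.Agent.MP_c00c90_lc

namespace Pool.Agent.Results.MP_c00c90_lc.TourBPPSharp

/-- The Euclidean travelling salesperson problem is in bounded error probabilistic polynomial time
with counting (sharp P) queries. -/
theorem result : BPPSharp ETSP := etsp_bpp

end Pool.Agent.Results.MP_c00c90_lc.TourBPPSharp
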